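import Pool.Agent.U865.KT.Crit

/-!
# The monodromy-weight conjecture without the hard Lefschetz theorem for the generic fibre
-/

namespace Pool.Agent.U865.KT

universe u v

open Module Pool.Agent.Y143 Pool.Agent.X302.MW Pool.Agent.Helper60K9.KL Pool.Agent.U865.LS

variable {Ω : Type u} [Field Ω] [CharZero Ω] {Γ : Type} {n q : ℕ}
variable {X : SemistableModel.{u, v} Ω Γ n q} (A : DivisorClasses X.toSpecialFibre)
include A

theorem kato_outer (k : ℕ) (hk : k ≤ 1 ∨ 2 * n ≤ k + 1) : KatoAt X k := by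
  rcases Nat.lt_or_ge k (2 * n) with h | h
  · rcases hk with h1 | h1
    · interval_cases k
      · exact katoAt_zero A
      · exact katoAt_one A
    · obtain rfl : k = 2 * n - 1 := by omega
      exact (katoAt_dual X (2 * n - 1) 1 (by omega)).2 (katoAt_one A)
  · exact katoAt_big k h

theorem kato_le_two (hn : n ≤ 2) (k : ℕ) : KatoAt X k := by
  by_cases h : k ≤ 1 ∨ 2 * n ≤ k + 1
  · exact kato_outer A k h
  · obtain rfl : k = 2 := by omega
    exact (katoAt_two A).2 (primGysin_top X.toSpecialFibre 0 (by omega))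

theorem kato_two_iff (k : ℕ) (hk : k = 2 ∨ k + 2 = 2 * n) :
    KatoAt X k ↔ PrimGysin X.toSpecialFibre 0 := by
  rcases hk with rfl | hk
  · exact katoAt_two A
  · rw [katoAt_dual X k 2 hk]
    exact katoAt_two A

variable [IsAlgClosed Ω]

theorem grInj_small (k : ℕ) (hk : k ≤ n) (h : SmallStrata A k) (e : ℕ) (he : 1 ≤ e) :
    GrInj X k e := by
  obtain ⟨a, rfl⟩ : ∃ a, e = a + 1 := ⟨e - 1, by omega⟩
  exact grInj_tame A k hk a fun w _ h2 χ => tame_of_small A hk h w 0 (by omega) χ

theorem kato_small (h : SmallStrata A n) : KatoAt X n := by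
  rw [katoAt_iff]
  intro e he
  rw [grIso_middle]
  exact grInj_small A n le_rfl h e he

/-- From `H^k` to `H^(k+2)`. -/
theorem grInj_add_two (k : ℕ) (hk : k + 2 ≤ n) (h : ∀ e, 1 ≤ e → GrInj X k e)
    (hs : ∀ a w : ℕ, a + 1 + w = k → Steps X.toSpecialFibre a w ∨ ∀ χ, Tame A a (w + 2) χ)
    (e : ℕ) (he : 1 ≤ e) : GrInj X (k + 2) e := by
  obtain ⟨a, rfl⟩ : ∃ a, e = a + 1 := ⟨e - 1, by omega⟩
  by_cases ha : a + 1 ≤ k
  · obtain ⟨w, hw⟩ : ∃ w, k = a + 1 + w := ⟨k - (a + 1), by omega⟩
    rcases hs a w hw.symm with h1 | h1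
    · obtain ⟨m, hm⟩ : ∃ m, n = k + 2 + m := ⟨n - (k + 2), by omega⟩
      have h2 := (grInj_iff X k (a + 1)).1 (h (a + 1) he)
      rw [grInj_iff]
      push_cast at h2 ⊢
      rw [show (k : ℤ) - n = -((m + 2 : ℕ) : ℤ) by push_cast [hm]; ring] at h2
      rw [show (k : ℤ) + 2 - n = -(m : ℤ) by push_cast [hm]; ring]
      have h3 := crit_of_nInj X.toSpecialFibre a (m + 2) (w := w)
        (by push_cast [hm, hw]; ring) h2
      exact LS.nInj_of X.toSpecialFibre a m (w := (w : ℤ) + 2) (by push_cast [hm, hw]; ring)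
        (crit_step X.toSpecialFibre (by omega) h1 h3)
    · exact grInj_tame A (k + 2) hk a fun w' _ h3 => by
        obtain rfl : w' = w + 2 := by omega
        exact h1
  · exact grInj_tame A (k + 2) hk a fun w' h2 h3 => by omega

omit A [IsAlgClosed Ω] in
/-- The kernel of `N` lies in the part of weight at most `k`. -/
theorem ker_le (k : ℕ) (h : ∀ e, 1 ≤ e → GrInj X k e) (v : X.V k) (hv : X.N k v = 0) :
    v ∈ X.W k k := by
  obtain ⟨t, ht⟩ := X.W_top k
  have key : ∀ e : ℕ, v ∈ X.W k ((k : ℤ) + e) → v ∈ X.W k k := by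
    intro e
    induction e with
    | zero => intro h; exact X.W_cast (by push_cast; ring) h
    | succ e ih =>
      intro h1
      apply ih
      have h2 : pw (X.N k) (e + 1) v = 0 := by
        show (X.N k ^ (e + 1)) v = 0
        rw [pow_succ, Module.End.mul_apply, hv, map_zero]
      have h3 := h (e + 1) (by omega) v h1 (by rw [h2]; exact Submodule.zero_mem _)
      exact X.W_cast (by push_cast; ring) h3
  apply key (t - k).toNat
  have h1 : v ∈ X.W k t := by rw [ht]; exact Submodule.mem_top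
  exact X.W_mono k (by omega) h1

omit [IsAlgClosed Ω] in
/-- The outer graded pieces in the middle degree. -/
theorem outer_middle : PureFrom q n (X.actV n X.frob) (X.N n) (n - 1) := by
  have h : ∀ e : ℕ, n - 1 ≤ e → 1 ≤ e → GrIso X n e := by
    intro e h1 h2
    rw [grIso_middle]
    rcases Nat.lt_or_ge n e with h | h
    · exact (grIso_triv X n e (Or.inl h)).1
    by_cases h3 : e = n
    · subst h3
      exact (grIso_top A e h2).1
    · obtain rfl : e = n - 1 := by omega
      exact grInj_one A n (by omega)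
  exact pureFrom_of X n (n - 1) (fun e h1 h2 => (grInj_iff X n e).1 (h e h1 h2).1)
    (fun e h1 h2 => (grSurj_iff X n e).1 (h e h1 h2).2)

end Pool.Agent.U865.KT
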