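import Pool.Agent.U865.KT.Defs
import Pool.Agent.U865.LS.Step
import Pool.Agent.Helper60K9.KL.Mid
import Pool.Agent.Helper60K9.KL.Curves

/-!
# Critical classes of tame characters
-/

namespace Pool.Agent.U865.KT

universe u v

open Module Pool.Agent.Y143 Pool.Agent.X302.MW Pool.Agent.Helper60K9.KL Pool.Agent.U865.LS

variable {Ω : Type u} [Field Ω] [CharZero Ω] {Γ : Type} {n q : ℕ}

section fibre

variable {X : SpecialFibre.{u, v} Ω Γ n q} (A : DivisorClasses X)
include A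

/-- Critical classes of degree three. -/
lemma crit3' (a : ℕ) (hn : a + 4 ≤ n) (hW : WeilThird X a) (hP : PrimGysin X a) {y : X.H a}
    (hy : y ∈ X.gr a 3) (hG : X.gys a (X.res a y) = 0) :
    ∃ v ∈ X.gr (a + 2) 1, X.res (a + 2) v = 0 ∧ X.res a y = X.gys (a + 1) v := by
  obtain ⟨d, hd⟩ : ∃ d, n = a + 4 + d := ⟨n - (a + 4), by omega⟩
  let Q1 : X.H (a + 1) →ₗ[Ω] X.H (a + 1) →ₗ[Ω] Ω :=
    (X.pair (a + 1)).compl₂ (X.lef (a + 1) ^ (d + 2))
  let Q2 : X.H (a + 2) →ₗ[Ω] X.H (a + 2) →ₗ[Ω] Ω :=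
    (X.pair (a + 2)).compl₂ (X.lef (a + 2) ^ (d + 1))
  have hQ1 : ∀ x y, Q1 x y = X.pair (a + 1) x ((X.lef (a + 1) ^ (d + 2)) y) := fun x y => rfl
  have hQ2 : ∀ x y, Q2 x y = X.pair (a + 2) x ((X.lef (a + 2) ^ (d + 1)) y) := fun x y => rfl
  let F1 : Submodule Ω (X.H (a + 1)) := (X.gr a 1).map (X.res a)
  let F2 : Submodule Ω (X.H (a + 2)) := (X.gr (a + 1) 1).map (X.res (a + 1))
  have hF1 : ∀ x ∈ F1, (∀ y ∈ F1, Q1 x y = 0) → x = 0 := by
    rintro _ ⟨x, hx, rfl⟩ h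
    apply A.weil_one a x hx
    intro u hu
    rw [show n - a - 2 = d + 2 by omega]
    exact h _ ⟨u, hu, rfl⟩
  have hF2 : ∀ x ∈ F2, (∀ y ∈ F2, Q2 x y = 0) → x = 0 := by
    rintro _ ⟨x, hx, rfl⟩ h
    apply A.weil_one (a + 1) x hx
    intro u hu
    rw [show n - (a + 1) - 2 = d + 1 by omega]
    exact h _ ⟨u, hu, rfl⟩
  have hker : ∀ k ∈ X.gr (a + 1) 1, X.res (a + 1) k = 0 →
      X.pair (a + 1) (X.res a y) ((X.lef (a + 1) ^ (d + 1)) k) = 0 := by
    intro k hk hRk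
    obtain ⟨_, ⟨u0, hu0, rfl⟩, hf⟩ := exists_repr Q1 F1 hF1 (Q1 k)
    set h := k - X.res a u0 with hh
    have hh0 : h ∈ X.gr (a + 1) 1 := Submodule.sub_mem _ hk (X.res_gr a 1 _ hu0)
    have hRh : X.res (a + 1) h = 0 := by rw [hh, map_sub, hRk, X.res_res, sub_zero]
    have hg : X.gys a h = 0 := by
      apply hP h hh0 hRh
      show (X.lef a ^ (n - a - 2)) (X.gys a h) = 0
      apply eq_zero_of_orth X a (lef_pow_gr X a _ (X.gys_gr a _ _ hh0))
      intro u hu
      have hu1 : u ∈ X.gr a 1 := gr_cast X (by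
        rw [show n - a - 2 = d + 2 by omega]; push_cast [hd]; ring) hu
      have h1 := hf _ (show X.res a u ∈ F1 from ⟨u, hu1, rfl⟩)
      rw [hQ1, hQ1] at h1
      rw [lef_pow_pair, X.pair_gys, res_lef_pow, show n - a - 2 = d + 2 by omega, hh, map_sub,
        LinearMap.sub_apply, h1, sub_self]
    have hk' : k = X.res a u0 + h := by rw [hh]; abel
    rw [hk', map_add, map_add, ← res_lef_pow, ← X.pair_gys, hG, map_zero, LinearMap.zero_apply,
      X.pair_res, gys_lef_pow, hg, map_zero, map_zero, add_zero]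
  obtain ⟨φ', hφ'⟩ := exists_factor ((X.res (a + 1)).domRestrict (X.gr (a + 1) 1))
    ((X.pair (a + 1) (X.res a y) ∘ₗ (X.lef (a + 1) ^ (d + 1))).domRestrict (X.gr (a + 1) 1))
    (fun k hk => hker k k.2 hk)
  obtain ⟨_, ⟨b0, hb0, rfl⟩, hv⟩ := exists_repr Q2 F2 hF2 φ'
  have hv' : ∀ b ∈ X.gr (a + 1) 1, X.pair (a + 2) (X.res (a + 1) b0)
      ((X.lef (a + 2) ^ (d + 1)) (X.res (a + 1) b)) =
        X.pair (a + 1) (X.res a y) ((X.lef (a + 1) ^ (d + 1)) b) := by
    intro b hb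
    rw [← hQ2, hv _ ⟨b, hb, rfl⟩]
    exact hφ' ⟨b, hb⟩
  refine ⟨X.res (a + 1) b0, X.res_gr (a + 1) 1 _ hb0, X.res_res (a + 1) b0, ?_⟩
  set z := X.res a y - X.gys (a + 1) (X.res (a + 1) b0) with hz
  have hGz : X.gys a z = 0 := by rw [hz, map_sub, hG, X.gys_gys, sub_zero]
  have hRz : X.res (a + 1) z = 0 := by
    rw [hz, map_sub, X.res_res, zero_sub]
    have := X.res_gys (a + 1) (X.res (a + 1) b0)
    rw [X.res_res, map_zero, add_zero] at this
    rw [this, neg_zero]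
  have hz3 : z ∈ X.gr (a + 1) 3 := Submodule.sub_mem _ (X.res_gr a 3 _ hy)
    (gr_cast _ (by norm_num) (X.gys_gr (a + 1) _ _ (X.res_gr (a + 1) 1 _ hb0)))
  have hLz : (X.lef (a + 1) ^ (d + 1)) z = 0 := by
    apply eq_zero_of_orth X (a + 1) (lef_pow_gr X (a + 1) (d + 1) hz3)
    intro b hb
    have hb1 : b ∈ X.gr (a + 1) 1 := gr_cast _ (by push_cast [hd]; ring) hb
    rw [lef_pow_pair, hz, map_sub, LinearMap.sub_apply, ← hv' b hb1, X.pair_gys, res_lef_pow,
      sub_self]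
  have hU : z ∈ critThird X a := by
    refine ⟨⟨⟨?_, hRz⟩, hGz⟩, ?_⟩
    · apply Submodule.sub_mem
      · exact Submodule.mem_sup_left ⟨y, hy, rfl⟩
      · exact Submodule.mem_sup_right ⟨_, X.res_gr (a + 1) 1 _ hb0, rfl⟩
    · show z ∈ kerPow (X.lef (a + 1)) (n - a - 3)
      rw [show n - a - 3 = d + 1 by omega]
      exact hLz
  have hz0 : z = 0 := by
    apply hW z hU
    rintro z' ⟨⟨⟨hz', -⟩, -⟩, -⟩
    obtain ⟨_, ⟨y', hy', rfl⟩, _, ⟨v', hv'', rfl⟩, rfl⟩ := Submodule.mem_sup.1 hz'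
    show X.pair (a + 1) z ((X.lef (a + 1) ^ (n - a - 4)) (X.res a y' + X.gys (a + 1) v')) = 0
    rw [map_add, map_add, ← res_lef_pow, ← gys_lef_pow, ← X.pair_gys, hGz, ← X.pair_res, hRz,
      map_zero, map_zero, LinearMap.zero_apply, LinearMap.zero_apply, add_zero]
  exact sub_eq_zero.1 hz0

variable [IsAlgClosed Ω]

/-- Critical classes of a tame character are Gysin images. -/
lemma crit_tame {a w : ℕ} {χ : Γ → Ω} (h : Tame A a w χ) :
    a + 1 + w ≤ n → ∀ y ∈ Part X a w χ, X.gys a (X.res a y) = 0 →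
      ∃ v ∈ X.gr (a + 2) ((w : ℤ) - 2), X.res (a + 2) v = 0 ∧ X.res a y = X.gys (a + 1) v := by
  induction h with
  | low w χ hw =>
    intro _ y hy hG
    have h0 : X.res a y = 0 := by
      interval_cases w
      · exact crit0 A a (by simpa using hy.1) hG
      · exact crit1 A a (by simpa using hy.1) hG
    exact ⟨0, Submodule.zero_mem _, map_zero _, by rw [h0, map_zero]⟩
  | divisors χ h =>
    intro hn y hy hG
    obtain ⟨x, hx, hxy⟩ := h y hy
    rw [hxy] at hG ⊢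
    obtain ⟨v, hv, hR, hv2⟩ := crit2 A a (by omega) hx hG
    exact ⟨v, gr_cast X (by norm_num) hv, hR, hv2⟩
  | crit χ h =>
    intro hn y hy hG
    obtain ⟨v, hv, hR, hv2⟩ := h y (by simpa using hy.1) hG
    exact ⟨v, gr_cast X (by norm_num) hv, hR, hv2⟩
  | third χ h hP =>
    intro hn y hy hG
    obtain ⟨v, hv, hR, hv2⟩ := crit3' A a (by omega) h hP hy.1 hG
    exact ⟨v, gr_cast X (by norm_num) hv, hR, hv2⟩
  | extend w χ h =>
    intro hn y hy hG
    have h0 := eq_zero_of_extend X hn h ⟨X.res_gr a _ _ hy.1, res_Wt X a hy.2⟩ (X.res_res a y) hG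
    exact ⟨0, Submodule.zero_mem _, map_zero _, by rw [h0, map_zero]⟩
  | lefschetz w χ _ h ih =>
    intro hn y hy hG
    obtain ⟨x, hx, z, hz, hxz⟩ := h y ⟨gr_cast X (by push_cast; ring) hy.1, hy.2⟩
    have hz' : X.res a (X.gys a z) = - X.gys (a + 1) (X.res (a + 1) z) :=
      add_eq_zero_iff_eq_neg.1 (X.res_gys a z)
    have hL : (X.lef a ^ 1) (X.gys a (X.res a x)) = 0 := by
      rw [hxz, map_add, map_add, gys_res_gys, add_zero, X.res_lef, X.gys_lef] at hG
      rw [pow_one]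
      exact hG
    have h0 : X.gys a (X.res a x) = 0 := by
      refine lef_pow_inj X a 1 (w + 2) (by omega) ?_ hL
      exact gr_cast X (by push_cast; ring) (X.gys_gr a _ _ (X.res_gr a _ _ hx.1))
    obtain ⟨v, hv, hR, hvx⟩ := ih (by omega) x hx h0
    refine ⟨X.lef (a + 2) v - X.res (a + 1) z, Submodule.sub_mem _ ?_ ?_, ?_, ?_⟩
    · exact gr_cast X (by push_cast; ring) (X.lef_gr (a + 2) _ _ hv)
    · exact gr_cast X (by push_cast; ring) (X.res_gr (a + 1) _ _ hz)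
    · rw [map_sub, X.res_lef, hR, map_zero, X.res_res, sub_zero]
    · rw [hxz, map_add, X.res_lef, hvx, hz', map_sub, X.gys_lef, sub_eq_add_neg]

/-- If all characters are tame, all critical classes are Gysin images. -/
lemma crit_all {a w : ℕ} (hn : a + 1 + w ≤ n) (h : ∀ χ, Tame A a w χ) {y : X.H a}
    (hy : y ∈ X.gr a w) (hG : X.gys a (X.res a y) = 0) :
    ∃ v ∈ X.gr (a + 2) ((w : ℤ) - 2), X.res (a + 2) v = 0 ∧ X.res a y = X.gys (a + 1) v := by
  let S : Submodule Ω (X.H a) := ((X.gr (a + 2) ((w : ℤ) - 2) ⊓ LinearMap.ker (X.res (a + 2))).map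
    (X.gys (a + 1))).comap (X.res a)
  have hS : y ∈ S := by
    apply mem_of_prj_mem (comm_act X a)
    intro χ
    have h1 := prj_stable (comm_act X a) (fun g x hx => X.act_gr a w g x hx) χ hy
    have h2 := prj_mem (comm_act X a) χ y
    have h3 := prj_equiv (comm_act X a) (comm_act X a) (c := fun g => (X.cyc g : Ω))
      (fun g => Units.ne_zero _) (X.gys a ∘ₗ X.res a)
      (fun g x => by
        show X.act a g (X.gys a (X.res a x)) = (X.cyc g : Ω) • X.gys a (X.res a (X.act a g x))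
        rw [X.gys_act, X.res_act]) χ y
    have h4 : X.gys a (X.res a (prj (X.act a) (comm_act X a) χ y)) = 0 := by
      rw [LinearMap.comp_apply, hG, map_zero] at h3
      exact h3.symm
    obtain ⟨v, hv, hR, hvy⟩ := crit_tame A (h χ) hn _ ⟨h1, h2⟩ h4
    exact ⟨v, ⟨hv, hR⟩, hvy.symm⟩
  obtain ⟨v, ⟨hv, hR⟩, hvy⟩ := hS
  exact ⟨v, hv, hR, hvy.symm⟩

/-- Small strata are tame. -/
lemma tame_of_small {a m : ℕ} (hm : m ≤ n) (h : SmallStrata A m) :
    ∀ w t : ℕ, a + 1 + w + 2 * t = m → ∀ χ : Γ → Ω, Tame A a w χ := by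
  intro w
  induction w using Nat.strong_induction_on with
  | _ w ih =>
    intro t h2 χ
    rcases Nat.lt_or_ge w 2 with hw | hw
    · exact Tame.low w χ (by omega)
    rcases Nat.eq_or_lt_of_le hw with hw2 | hw2
    · subst hw2
      rcases (h a 2 t h2).1 rfl with h3 | h3
      · exact Tame.divisors χ fun y hy => ⟨y, h3 hy.1, rfl⟩
      · exact Tame.crit χ h3
    rcases (h a w t h2).2 hw2 with hd | ⟨rfl, hW, hP⟩
    · obtain ⟨m', rfl⟩ : ∃ m, w = m + 2 := ⟨w - 2, by omega⟩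
      have hχ : χ = fun g => (X.cyc g : Ω) * ((X.cyc g : Ω)⁻¹ * χ g) := by
        funext g
        rw [mul_inv_cancel_left₀ (Units.ne_zero _)]
      rw [hχ]
      refine Tame.lefschetz m' (fun g => (X.cyc g : Ω)⁻¹ * χ g)
        (ih m' (by omega) (t + 1) (by omega) _) fun y hy => ?_
      have hy' : y ∈ X.gr a ((m' + 2 : ℕ) : ℤ) := gr_cast X (by push_cast; ring) hy.1
      obtain ⟨x, hx, hxy⟩ := lef_onto (by omega) hw2 hd hy'
      have hx' : x ∈ X.gr a m' := gr_cast X (by push_cast; ring) hx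
      refine ⟨prj (X.act a) (comm_act X a) (fun g => (X.cyc g : Ω)⁻¹ * χ g) x,
        ⟨prj_stable (comm_act X a) (fun g x hx => X.act_gr a m' g x hx) _ hx', prj_mem _ _ _⟩, 0,
        Submodule.zero_mem _, ?_⟩
      have h3 := prj_equiv (comm_act X a) (comm_act X a) (c := fun g => (X.cyc g : Ω))
        (fun g => Units.ne_zero _) (X.lef a) (fun g x => X.lef_act a g x)
        (fun g => (X.cyc g : Ω)⁻¹ * χ g) x
      rw [map_zero, add_zero, ← h3, hxy, prj_of_mem _ hy.2]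
    · exact Tame.third χ hW hP

end fibre

section generic

variable {X : SemistableModel.{u, v} Ω Γ n q} (A : DivisorClasses X.toSpecialFibre)

/-- Injectivity of `N ^ (a + 1)` on the graded pieces of `H^k`, `k ≤ n`. -/
lemma grInj_tame [IsAlgClosed Ω] (k : ℕ) (hk : k ≤ n) (a : ℕ)
    (h : ∀ w : ℕ, 2 ≤ w → a + 1 + w = k → ∀ χ, Tame A a w χ) : GrInj X k (a + 1) := by
  rw [grInj_iff]
  obtain ⟨m, hm⟩ : ∃ m, n = k + m := ⟨n - k, by omega⟩
  have h1 := LS.nInj_good X.toSpecialFibre A a m (fun w hw hw2 y hy hG =>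
    crit_all A (by omega) (h w hw (by omega)) hy hG)
  rw [show ((a + 1 : ℕ) : ℤ) = (a : ℤ) + 1 by push_cast; ring,
    show (k : ℤ) - n = -(m : ℤ) by push_cast [hm]; ring]
  exact h1

/-- The weight filtration is the monodromy filtration iff the cohomology is mw pure. -/
lemma mwPure_of_kato (k : ℕ) (h : KatoAt X k) : IsMWPure q k (X.actV k X.frob) (X.N k) := by
  refine ⟨_, h, fun a x hx => W_stable X k _ x hx, fun a α x hx hx' hα => ?_⟩
  rw [add_comm]
  exact W_weil X k a α x hx hx' hα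

lemma kato_iff_mwPure [IsAlgClosed Ω] (hq : 1 < q) (k : ℕ) :
    KatoAt X k ↔ IsMWPure q k (X.actV k X.frob) (X.N k) := by
  refine ⟨mwPure_of_kato k, fun h => ?_⟩
  obtain ⟨M, hM, hMs, hMw⟩ := h
  have hfin := finite_V X k
  have hbot : ∃ a : ℤ, X.W k (k + a) = ⊥ := by
    obtain ⟨w, hw⟩ := X.W_bot k
    exact ⟨w - k, by rw [show (k : ℤ) + (w - k) = w by ring, hw]⟩
  have htop : ∃ a : ℤ, X.W k (k + a) = ⊤ := by
    obtain ⟨w, hw⟩ := X.W_top k
    exact ⟨w - k, by rw [show (k : ℤ) + (w - k) = w by ring, hw]⟩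
  have hmono : Monotone fun a : ℤ => X.W k (k + a) := fun a b hab => X.W_mono k (by omega)
  have hMw' : ∀ (a : ℤ) (α : Ω) (x : X.V k), x ∈ M a → x ∉ M (a - 1) →
      X.actV k X.frob x - α • x ∈ M (a - 1) → IsWeilNumber q (k + a) α := by
    intro a α x h1 h2 h3
    rw [add_comm]
    exact hMw a α x h1 h2 h3
  have heq : M = fun b : ℤ => X.W k (k + b) := by
    funext b
    apply le_antisymm
    · exact filtration_le hq (Φ := X.actV k X.frob) (F := M) (G := fun a : ℤ => X.W k (k + a)) k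
        hM.mono hM.bot hMs hMw' hmono htop (fun a x hx => W_stable X k _ x hx)
        (fun a α x h1 h2 h3 => W_weil X k a α x h1 h2 h3) b
    · exact filtration_le hq (Φ := X.actV k X.frob) (F := fun a : ℤ => X.W k (k + a)) (G := M) k
        hmono hbot (fun a x hx => W_stable X k _ x hx)
        (fun a α x h1 h2 h3 => W_weil X k a α x h1 h2 h3) hM.mono hM.top hMs hMw' b
  rw [heq] at hM
  exact hM

end generic

end Pool.Agent.U865.KT
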