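import Pool.Agent.U865.LS.Defs
import Pool.Agent.Helper60K9.KL.Defs

/-!
# Controlled classes, without the hard Lefschetz theorem for the generic fibre
-/

namespace Pool.Agent.U865.KT

universe u v

open Module Pool.Agent.Y143 Pool.Agent.X302.MW Pool.Agent.Helper60K9.KL Pool.Agent.U865.LS

variable {Ω : Type u} [Field Ω] [CharZero Ω] {Γ : Type} {n q : ℕ}

/-- The tame pairs of a degree `w` and a character `χ` for the restriction
`ρ : H^w(Y^(a+1)) → H^w(Y^(a+2))` form the smallest set with the following properties.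

* The pairs with `w ≤ 1` are tame.
* `(2, χ)` is tame if the restriction of every class of character `χ` in `H^2(Y^(a+1))` is the
  restriction of a linear combination of classes of divisors, or if `DivCrit` holds.
* `(3, χ)` is tame if `WeilThird` and `PrimGysin` hold.
* `(w, χ)` is tame if every class in `H^w(Y^(a+2))` whose character is dual to `χ` is the sum of a
  restriction from `Y^(a+1)` and of a Gysin image from `Y^(a+3)`.
* If `(w, χ)` is tame and the restriction of every class of character `χ` times the cyclotomic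
  character in `H^(w+2)(Y^(a+1))` is the restriction of `L x + τ z` with `x` in `H^w(Y^(a+1))` of
  character `χ` and `z` in `H^w(Y^(a+2))`, then `w + 2` and this character are tame. -/
inductive Tame {X : SpecialFibre.{u, v} Ω Γ n q} (A : DivisorClasses X) (a : ℕ) :
    ℕ → (Γ → Ω) → Prop
  | low (w : ℕ) (χ : Γ → Ω) (h : w ≤ 1) : Tame A a w χ
  | divisors (χ : Γ → Ω)
      (h : ∀ y ∈ Part X a 2 χ, ∃ x ∈ Submodule.span Ω (A.A1 a : Set (X.H a)),
        X.res a y = X.res a x) : Tame A a 2 χ
  | crit (χ : Γ → Ω) (h : DivCrit X a) : Tame A a 2 χ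
  | third (χ : Γ → Ω) (h : WeilThird X a) (hP : PrimGysin X a) : Tame A a 3 χ
  | extend (w : ℕ) (χ : Γ → Ω)
      (h : ∀ u ∈ Part X (a + 1) w (dualAt X w χ), ∃ x ∈ X.gr a w,
        ∃ z ∈ X.gr (a + 2) ((w : ℤ) - 2), u = X.res a x + X.gys (a + 1) z) : Tame A a w χ
  | lefschetz (w : ℕ) (χ : Γ → Ω) (hw : Tame A a w χ)
      (h : ∀ y ∈ Part X a ((w : ℤ) + 2) (fun g => (X.cyc g : Ω) * χ g), ∃ x ∈ Part X a w χ,
        ∃ z ∈ X.gr (a + 1) w, X.res a y = X.res a (X.lef a x + X.gys a z)) :
      Tame A a (w + 2) (fun g => (X.cyc g : Ω) * χ g)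

/-- The cohomology of the strata `Y^(a+1)` in the degrees `w ≥ 2` with `a + 1 + w ≤ m` and
`a + 1 + w` of the same parity as `m` is small: `H^2` is spanned by the classes of divisors or the
condition `DivCrit` holds, and for `w ≥ 3` the dimension of `H^w` is not bigger than the one of
`H^(w-2)` or `w = 3` and `WeilThird` and `PrimGysin` hold. -/
def SmallStrata {X : SpecialFibre.{u, v} Ω Γ n q} (A : DivisorClasses X) (m : ℕ) : Prop :=
  ∀ a w t : ℕ, a + 1 + w + 2 * t = m →
    (w = 2 → X.gr a 2 ≤ Submodule.span Ω (A.A1 a : Set (X.H a)) ∨ DivCrit X a) ∧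
    (3 ≤ w → finrank Ω (X.gr a w) ≤ finrank Ω (X.gr a ((w : ℤ) - 2)) ∨
      (w = 3 ∧ WeilThird X a ∧ PrimGysin X a))

end Pool.Agent.U865.KT
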